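import Pool.Agent.H14.AVR.Stmts2

/-!
# AVR, module DSC: the discriminant and separability
-/

set_option autoImplicit false

namespace Pool.AVR

open Polynomial Matrix

section DSC

variable {K : Type} [Field K]

private lemma dsc_degree (a b c : K) : (cub a b c).degree = 3 := by
  have h : cub a b c = Cubic.toPoly ⟨1, a, b, c⟩ := by
    simp [cub, Cubic.toPoly]
  rw [h]
  exact Cubic.degree_of_a_ne_zero' one_ne_zero

private lemma dsc_natDegree (a b c : K) : (cub a b c).natDegree = 3 :=
  natDegree_eq_of_degree_eq_some (dsc_degree a b c)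

private lemma dsc_monic (a b c : K) : (cub a b c).Monic := by
  have h : cub a b c = Cubic.toPoly ⟨1, a, b, c⟩ := by
    simp [cub, Cubic.toPoly]
  rw [h]
  exact Cubic.monic_of_a_eq_one'

private lemma dsc_coeffs (a b c : K) : (cub a b c).coeff 0 = c ∧ (cub a b c).coeff 1 = b ∧
    (cub a b c).coeff 2 = a ∧ (cub a b c).coeff 3 = 1 := by
  have h : cub a b c = Cubic.toPoly ⟨1, a, b, c⟩ := by
    simp [cub, Cubic.toPoly]
  rw [h]
  exact ⟨Cubic.coeff_eq_d, Cubic.coeff_eq_c, Cubic.coeff_eq_b, Cubic.coeff_eq_a⟩

private lemma dsc_discr (a b c : K) : (cub a b c).discr = disc a b c := by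
  obtain ⟨h0, h1, h2, h3⟩ := dsc_coeffs a b c
  rw [discr_of_degree_eq_three (dsc_degree a b c), h0, h1, h2, h3]
  unfold disc
  ring

private lemma dsc_sep (a b c : K) : (cub a b c).Separable ↔ disc a b c ≠ 0 := by
  have hm := dsc_monic a b c
  have hd := dsc_natDegree a b c
  have hle : (derivative (cub a b c)).natDegree ≤ 2 := by
    have := natDegree_derivative_le (cub a b c)
    omega
  have hres : resultant (cub a b c) (derivative (cub a b c)) = - disc a b c := by
    have h1 := resultant_deriv (f := cub a b c) (by rw [dsc_degree]; norm_num)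
    rw [hd, hm.leadingCoeff, dsc_discr] at h1
    obtain ⟨k, hk⟩ := Nat.exists_eq_add_of_le hle
    have h2 := resultant_add_right_deg (cub a b c) (derivative (cub a b c)) 3
      (derivative (cub a b c)).natDegree k le_rfl
    rw [← hk, (dsc_coeffs a b c).2.2.2, one_pow, one_mul] at h2
    have h3 : resultant (cub a b c) (derivative (cub a b c)) =
        resultant (cub a b c) (derivative (cub a b c)) 3 (derivative (cub a b c)).natDegree := by
      rw [hd]
    have h4 : resultant (cub a b c) (derivative (cub a b c)) 3 2 = (-1) ^ 3 * disc a b c := by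
      simpa using h1
    rw [h3, ← h2, h4]
    ring
  rw [Separable, ← isUnit_resultant_iff_isCoprime hm, hres, isUnit_iff_ne_zero, ne_eq, neg_eq_zero]

theorem DSC_thm : DSCStmt := by
  intro K _ _ a b c
  refine ⟨dsc_sep a b c, ?_⟩
  simp only [E, disc, WeierstrassCurve.Δ, WeierstrassCurve.b₂, WeierstrassCurve.b₄,
    WeierstrassCurve.b₆, WeierstrassCurve.b₈]
  ring

end DSC

end Pool.AVR
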