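import Pool.Agent.H14.AVR.Stmts3

/-!
# AVR, module NUM: upper bound for the numerator
-/

set_option autoImplicit false

namespace Pool.AVR

open Polynomial Matrix

namespace NUM

section General

variable {R : Type} [CommRing R]

/-- The coefficients of the characteristic polynomial of `A B`. -/
noncomputable def cf (B : Matrix (Fin 3) (Fin 3) R) : R × R × R :=
  ((AA R * B).charpoly.coeff 2, (AA R * B).charpoly.coeff 1, (AA R * B).charpoly.coeff 0)

lemma cub_coeffs (a b c : R) : (cub a b c).coeff 0 = c ∧ (cub a b c).coeff 1 = b ∧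
    (cub a b c).coeff 2 = a := by
  have h : cub a b c = Cubic.toPoly ⟨1, a, b, c⟩ := by
    simp [cub, Cubic.toPoly]
  rw [h]
  exact ⟨Cubic.coeff_eq_d, Cubic.coeff_eq_c, Cubic.coeff_eq_b⟩

lemma cf_eq {B : Matrix (Fin 3) (Fin 3) R} {a b c : R} (h : (AA R * B).charpoly = cub a b c) :
    cf B = (a, b, c) := by
  obtain ⟨h0, h1, h2⟩ := cub_coeffs a b c
  unfold cf
  rw [h, h0, h1, h2]

lemma cf_spec (B : Matrix (Fin 3) (Fin 3) R) :
    (AA R * B).charpoly = cub (cf B).1 (cf B).2.1 (cf B).2.2 := by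
  nontriviality R
  have hd : (AA R * B).charpoly.natDegree = 3 := by
    rw [Matrix.charpoly_natDegree_eq_dim]; rfl
  have hm : (AA R * B).charpoly.coeff 3 = 1 := by
    have := (AA R * B).charpoly_monic
    rw [Monic, leadingCoeff, hd] at this
    exact this
  rw [(AA R * B).charpoly.as_sum_range_C_mul_X_pow, hd]
  simp only [Finset.sum_range_succ, Finset.sum_range_zero, hm, cub, cf]
  simp
  ring

lemma AA_map {R' : Type} [CommRing R'] (φ : R →+* R') : (AA R).map φ = AA R' := by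
  ext i j
  fin_cases i <;> fin_cases j <;> simp [AA]

lemma charpoly_map {R' : Type} [CommRing R'] (φ : R →+* R') (B : Matrix (Fin 3) (Fin 3) R)
    {a b c : R} (h : (AA R * B).charpoly = cub a b c) :
    (AA R' * B.map φ).charpoly = cub (φ a) (φ b) (φ c) := by
  have h1 : AA R' * B.map φ = (AA R * B).map φ := by
    rw [Matrix.map_mul, AA_map]
  rw [h1, Matrix.charpoly_map, h]
  simp [cub]

lemma disc_map {R' : Type} [CommRing R'] (φ : R →+* R') (a b c : R) :
    disc (φ a) (φ b) (φ c) = φ (disc a b c) := by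
  have h4 : φ 4 = 4 := map_ofNat φ 4
  have h18 : φ 18 = 18 := map_ofNat φ 18
  have h27 : φ 27 = 27 := map_ofNat φ 27
  simp [disc, h4, h18, h27]

/-- The good matrices. -/
def Good (R : Type) [CommRing R] : Set (Matrix (Fin 3) (Fin 3) R) :=
  {B | Bᵀ = B ∧ disc (cf B).1 (cf B).2.1 (cf B).2.2 ≠ 0}

lemma good_of {B : Matrix (Fin 3) (Fin 3) R} {a b c : R} (hB : Bᵀ = B)
    (h : (AA R * B).charpoly = cub a b c) (hd : disc a b c ≠ 0) : B ∈ Good R := by
  refine ⟨hB, ?_⟩
  rw [cf_eq h]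
  exact hd

lemma card_eq (hLDT : LDTStmt) [Finite R] (ϖ : R) (hL : Len2 R ϖ) (h2 : IsUnit (2 : R)) :
    Nat.card R = res ϖ ^ 2 := by
  have hne : disc (0 : R) 1 0 ≠ 0 := by
    have hu : IsUnit (4 : R) := by
      have : (4 : R) = 2 * 2 := by norm_num
      rw [this]; exact h2.mul h2
    intro h0
    have h4 : (4 : R) = 0 := by
      simp only [disc] at h0
      linear_combination -h0
    rw [h4] at hu
    have : (1 : R) = 0 := by
      obtain ⟨u, hu'⟩ := hu
      have := u.mul_inv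
      rw [hu', zero_mul] at this
      exact this.symm
    exact hL.ne (by rw [← mul_one ϖ, this, mul_zero])
  exact (hLDT R ϖ hL h2 0 1 0 hne).2

open Classical in
lemma good_card (hLDT : LDTStmt) [Finite R] (ϖ : R) (hL : Len2 R ϖ) (h2 : IsUnit (2 : R)) :
    ((Good R).ncard : ℝ) ≤ (Nat.card R : ℝ) ^ 6 * (dens R * (1 - 1 / (Nat.card R : ℝ))) := by
  have : Fintype R := Fintype.ofFinite R
  set T : Set (R × R × R) := {t | disc t.1 t.2.1 t.2.2 ≠ 0} with hT
  have hfin : Finite (R ⧸ Ideal.span {ϖ}) := inferInstance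
  have hk1 : 1 ≤ res ϖ := by
    unfold res
    exact Nat.card_pos
  have hcard : Nat.card R = res ϖ ^ 2 := card_eq hLDT ϖ hL h2
  have key : (Good R).ncard ≤ (res ϖ ^ 6 - res ϖ ^ 4) * T.ncard := by
    rw [Set.ncard_eq_toFinset_card', Set.ncard_eq_toFinset_card']
    refine Finset.card_le_mul_card_image_of_maps_to (f := fun B => cf B) ?_ _ ?_
    · intro B hB
      rw [Set.mem_toFinset] at hB ⊢
      exact hB.2
    · intro t ht
      rw [Set.mem_toFinset] at ht
      refine le_trans ?_ (hLDT R ϖ hL h2 t.1 t.2.1 t.2.2 ht).1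
      rw [Set.ncard_eq_toFinset_card']
      refine Finset.card_le_card ?_
      intro B hB
      rw [Finset.mem_filter, Set.mem_toFinset] at hB
      rw [Set.mem_toFinset]
      refine ⟨hB.1.1, ?_⟩
      rw [cf_spec B, hB.2]
  have hk : (1 : ℝ) ≤ (res ϖ : ℝ) := by exact_mod_cast hk1
  have hle : res ϖ ^ 4 ≤ res ϖ ^ 6 := Nat.pow_le_pow_right hk1 (by norm_num)
  have key' : ((Good R).ncard : ℝ) ≤ ((res ϖ : ℝ) ^ 6 - (res ϖ : ℝ) ^ 4) * (T.ncard : ℝ) := by
    have := (Nat.cast_le (α := ℝ)).2 key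
    rw [Nat.cast_mul, Nat.cast_sub hle] at this
    simpa using this
  refine key'.trans (le_of_eq ?_)
  unfold dens
  rw [hcard, ← hT]
  push_cast
  have hk0 : (res ϖ : ℝ) ≠ 0 := by positivity
  field_simp
  

end General

section Chinese

variable {F : Type} [Field F]

/-- Reduction from `F[t]/M` to `F[t]/Q`, `Q` a divisor of `M`. -/
noncomputable def psi {M Q : F[X]} (h : Q ∣ M) : AdjoinRoot M →+* AdjoinRoot Q :=
  Ideal.Quotient.factor (S := Ideal.span {M}) (T := Ideal.span {Q})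
    (Ideal.span_singleton_le_span_singleton.2 h)

lemma psi_mk {M Q : F[X]} (h : Q ∣ M) (p : F[X]) :
    psi h (AdjoinRoot.mk M p) = AdjoinRoot.mk Q p := rfl

/-- The product of the squares. -/
noncomputable def Mod (S : Finset F[X]) : F[X] := ∏ P ∈ S, P ^ 2

lemma dvd_Mod {S : Finset F[X]} {P : F[X]} (hP : P ∈ S) : P ^ 2 ∣ Mod S :=
  Finset.dvd_prod_of_mem (fun P => P ^ 2) hP

lemma Mod_dvd {S : Finset F[X]} (hS : ∀ P ∈ S, P.Monic ∧ Irreducible P) {g : F[X]}
    (h : ∀ P ∈ S, P ^ 2 ∣ g) : Mod S ∣ g := by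
  refine Finset.prod_dvd_of_coprime ?_ h
  intro P hP Q hQ hne
  refine IsCoprime.pow ?_
  refine (Irreducible.coprime_iff_not_dvd (hS P hP).2).2 ?_
  intro hd
  exact hne (eq_of_monic_of_associated (hS P hP).1 (hS Q hQ).1
    ((hS P hP).2.associated_of_dvd (hS Q hQ).2 hd))

lemma Mod_monic {S : Finset F[X]} (hS : ∀ P ∈ S, P.Monic ∧ Irreducible P) : (Mod S).Monic :=
  monic_prod_of_monic _ _ fun P hP => (hS P hP).1.pow 2

lemma Mod_natDegree {S : Finset F[X]} (hS : ∀ P ∈ S, P.Monic ∧ Irreducible P) :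
    (Mod S).natDegree = ∑ P ∈ S, 2 * P.natDegree := by
  unfold Mod
  rw [natDegree_prod_of_monic _ _ fun P hP => (hS P hP).1.pow 2]
  exact Finset.sum_congr rfl fun P _ => natDegree_pow P 2

/-- The symmetric matrices which are good modulo every `P ^ 2`. -/
def WW (S : Finset F[X]) : Set (Matrix (Fin 3) (Fin 3) (AdjoinRoot (Mod S))) :=
  {B | Bᵀ = B ∧ ∀ (P : F[X]) (hP : P ∈ S), B.map (psi (dvd_Mod hP)) ∈ Good (AdjoinRoot (P ^ 2))}

lemma WW_card (S : Finset F[X]) (hS : ∀ P ∈ S, P.Monic ∧ Irreducible P)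
    (hfin : ∀ P ∈ S, Finite (AdjoinRoot (P ^ 2))) :
    (WW S).ncard ≤ ∏ P ∈ S, (Good (AdjoinRoot (P ^ 2))).ncard := by
  have hf : ∀ P : {P // P ∈ S}, Finite (Good (AdjoinRoot (P.1 ^ 2))) := by
    intro P
    have := hfin P.1 P.2
    exact Subtype.finite
  let Φ : WW S → ∀ P : {P // P ∈ S}, Good (AdjoinRoot (P.1 ^ 2)) :=
    fun B P => ⟨B.1.map (psi (dvd_Mod P.2)), B.2.2 P.1 P.2⟩
  have hΦ : Function.Injective Φ := by
    intro B B' h
    apply Subtype.ext
    ext i j
    obtain ⟨x, hx⟩ := AdjoinRoot.mk_surjective (B.1 i j)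
    obtain ⟨y, hy⟩ := AdjoinRoot.mk_surjective (B'.1 i j)
    rw [← hx, ← hy, AdjoinRoot.mk_eq_mk]
    refine Mod_dvd hS ?_
    intro P hP
    have h1 : (Φ B ⟨P, hP⟩).1 i j = (Φ B' ⟨P, hP⟩).1 i j := by rw [h]
    have h2 : psi (dvd_Mod hP) (B.1 i j) = psi (dvd_Mod hP) (B'.1 i j) := h1
    rw [← hx, ← hy, psi_mk, psi_mk, AdjoinRoot.mk_eq_mk] at h2
    exact h2
  have h3 := Nat.card_le_card_of_injective Φ hΦ
  rw [Nat.card_pi, Nat.card_coe_set_eq] at h3
  refine h3.trans (le_of_eq ?_)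
  rw [← Finset.prod_coe_sort S (fun P => (Good (AdjoinRoot (P ^ 2))).ncard)]
  exact Finset.prod_congr rfl fun P _ => Nat.card_coe_set_eq _

lemma finite_matrices [Finite F] (N : ℕ) :
    {B : Matrix (Fin 3) (Fin 3) F[X] | ∀ i j, (B i j).natDegree ≤ N}.Finite := by
  have h1 : {p : F[X] | p.natDegree ≤ N}.Finite := by
    refine Set.Finite.of_finite_image (f := fun p : F[X] => fun i : Fin (N + 1) => p.coeff i)
      (Set.toFinite _) ?_
    intro p hp q hq h
    ext k
    by_cases hk : k ≤ N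
    · exact congrFun h ⟨k, by omega⟩
    · rw [coeff_eq_zero_of_natDegree_lt, coeff_eq_zero_of_natDegree_lt]
      · exact lt_of_le_of_lt hq (by omega)
      · exact lt_of_le_of_lt hp (by omega)
  have h2 : {v : Fin 3 → F[X] | ∀ j, v j ∈ {p : F[X] | p.natDegree ≤ N}}.Finite :=
    Set.Finite.pi' fun _ => h1
  exact Set.Finite.pi' fun _ => h2

lemma finite_Bd [Finite F] (n m : ℕ) : {B : Matrix (Fin 3) (Fin 3) F[X] | Bd n m B}.Finite := by
  refine (finite_matrices (F := F) (2 * n + 2 * m)).subset ?_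
  intro B hB i j
  by_cases h : B i j = 0
  · rw [h]; simp
  · have h1 := hB.2 i j h
    have h2 : ∀ i : Fin 3, dd m i ≤ m := by
      intro i
      fin_cases i <;> simp [dd]
    have h3 := h2 i
    have h4 := h2 j
    omega

/-- The good matrices at infinity. -/
def VV (F : Type) [Field F] : Set (Matrix (Fin 3) (Fin 3) (F × F)) :=
  (show Set (Matrix (Fin 3) (Fin 3) (F × F)) from Good (DualNumber F))

lemma natDegree_disc {n : ℕ} {f : F[X] × F[X] × F[X]} (hf : f ∈ Fam F n) :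
    (disc f.1 f.2.1 f.2.2).natDegree ≤ 12 * n := by
  obtain ⟨h1, h2, h3⟩ := hf
  obtain ⟨a, b, c⟩ := f
  simp only at h1 h2 h3 ⊢
  unfold disc
  have e1 : (a ^ 2 * b ^ 2).natDegree ≤ 12 * n := by
    refine natDegree_mul_le.trans ?_
    have := natDegree_pow_le (p := a) (n := 2)
    have := natDegree_pow_le (p := b) (n := 2)
    omega
  have e2 : (4 * b ^ 3).natDegree ≤ 12 * n := by
    refine natDegree_mul_le.trans ?_
    have := natDegree_pow_le (p := b) (n := 3)
    have h4 : (4 : F[X]).natDegree = 0 := natDegree_ofNat 4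
    omega
  have e3 : (4 * a ^ 3 * c).natDegree ≤ 12 * n := by
    refine natDegree_mul_le.trans ?_
    have := natDegree_mul_le (p := (4 : F[X])) (q := a ^ 3)
    have := natDegree_pow_le (p := a) (n := 3)
    have h4 : (4 : F[X]).natDegree = 0 := natDegree_ofNat 4
    omega
  have e4 : (18 * a * b * c).natDegree ≤ 12 * n := by
    refine natDegree_mul_le.trans ?_
    have := natDegree_mul_le (p := (18 : F[X]) * a) (q := b)
    have := natDegree_mul_le (p := (18 : F[X])) (q := a)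
    have h4 : (18 : F[X]).natDegree = 0 := natDegree_ofNat 18
    omega
  have e5 : (27 * c ^ 2).natDegree ≤ 12 * n := by
    refine natDegree_mul_le.trans ?_
    have := natDegree_pow_le (p := c) (n := 2)
    have h4 : (27 : F[X]).natDegree = 0 := natDegree_ofNat 27
    omega
  refine (natDegree_sub_le _ _).trans (max_le ?_ e5)
  refine (natDegree_add_le _ _).trans (max_le ?_ e4)
  refine (natDegree_sub_le _ _).trans (max_le ?_ e3)
  exact (natDegree_sub_le _ _).trans (max_le e1 e2)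

lemma top_ne_zero {N : ℕ} {p : F[X]} (hp : p ≠ 0) (h1 : p.natDegree ≤ N)
    (h2 : N ≤ p.natDegree + 1) : top N p ≠ 0 := by
  intro h
  have h3 : p.coeff N = 0 := congrArg Prod.fst h
  have h4 : p.coeff (N - 1) = 0 := congrArg Prod.snd h
  have h5 : p.coeff p.natDegree ≠ 0 := by
    rw [coeff_natDegree]
    exact leadingCoeff_ne_zero.2 hp
  rcases Nat.lt_or_ge p.natDegree N with h6 | h6
  · have : N - 1 = p.natDegree := by omega
    rw [this] at h4
    exact h5 h4
  · have : N = p.natDegree := by omega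
    rw [this] at h3
    exact h5 h3

end Chinese

theorem _root_.Pool.AVR.NUM_thm (hLDT : LDTStmt) (hLN2 : LN2Stmt) (hTOP : TOPStmt)
    (hEQB : EQBStmt) : NUMStmt := by
  intro F _ _ h2 S hS
  have hLS := (hLN2 F).1
  obtain ⟨hLD, hresD⟩ := (hLN2 F).2
  have hfin : ∀ P ∈ S, Finite (AdjoinRoot (P ^ 2)) := fun P hP => (hLS P (hS P hP).1 (hS P hP).2).2.1
  refine ⟨(Mod S).natDegree + 2, fun n m hnm => ?_⟩
  have hE := hEQB F n m (Mod S) (Mod_monic hS).ne_zero (by omega) (by omega) (WW S) (VV F)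
    (fun B hB => hB.1) (fun B hB => hB.1)
  set Big : Set (Matrix (Fin 3) (Fin 3) F[X]) := {B | Bd n m B ∧
    B.map (AdjoinRoot.mk (Mod S)) ∈ WW S ∧
    (Matrix.of fun i j => ((B i j).coeff (2 * (n : ℤ) + dd m i + dd m j).toNat,
      (B i j).coeff ((2 * (n : ℤ) + dd m i + dd m j).toNat - 1))) ∈ VV F} with hBig
  have hsub : {B : Matrix (Fin 3) (Fin 3) F[X] | Bd n m B ∧ ∃ f ∈ SF F n,
      (AA F[X] * B).charpoly = cubP f} ⊆ Big := by
    rintro B ⟨hB, f, hf, hch⟩
    have hd0 : disc f.1 f.2.1 f.2.2 ≠ 0 := hf.2.1.ne_zero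
    refine ⟨hB, ⟨?_, ?_⟩, ?_⟩
    · rw [← Matrix.transpose_map, hB.1]
    · intro P hP
      have e : (B.map (AdjoinRoot.mk (Mod S))).map (psi (dvd_Mod hP)) =
          B.map (AdjoinRoot.mk (P ^ 2)) := by
        ext i j
        exact psi_mk (dvd_Mod hP) (B i j)
      rw [e]
      refine good_of (a := AdjoinRoot.mk (P ^ 2) f.1) (b := AdjoinRoot.mk (P ^ 2) f.2.1)
        (c := AdjoinRoot.mk (P ^ 2) f.2.2) ?_ ?_ ?_
      · rw [← Matrix.transpose_map, hB.1]
      · exact charpoly_map (AdjoinRoot.mk (P ^ 2)) B hch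
      · rw [disc_map (AdjoinRoot.mk (P ^ 2))]
        intro h0
        rw [AdjoinRoot.mk_eq_zero, pow_two] at h0
        exact (hS P hP).2.not_isUnit (hf.2.1 P h0)
    · obtain ⟨hT1, hT2⟩ := hTOP F n m (by omega)
      refine good_of (R := DualNumber F) (a := top (2 * n) f.1) (b := top (4 * n) f.2.1)
        (c := top (6 * n) f.2.2) ?_ (hT1 B f hB hf.1 hch) ?_
      · refine Matrix.ext fun i j => ?_
        have h1 : B j i = B i j := by
          have := congrFun (congrFun hB.1 i) j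
          exact this
        have h3 : (2 * (n : ℤ) + dd m j + dd m i) = (2 * (n : ℤ) + dd m i + dd m j) := by ring
        show ((B j i).coeff (2 * (n : ℤ) + dd m j + dd m i).toNat,
          (B j i).coeff ((2 * (n : ℤ) + dd m j + dd m i).toNat - 1)) =
          ((B i j).coeff (2 * (n : ℤ) + dd m i + dd m j).toNat,
          (B i j).coeff ((2 * (n : ℤ) + dd m i + dd m j).toNat - 1))
        rw [h1, h3]
      · rw [← hT2 f hf.1]
        exact top_ne_zero hd0 (natDegree_disc hf.1) hf.2.2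
  have hBigfin : Big.Finite := (finite_Bd (F := F) n m).subset fun B hB => hB.1
  have hle : ({B : Matrix (Fin 3) (Fin 3) F[X] | Bd n m B ∧ ∃ f ∈ SF F n,
      (AA F[X] * B).charpoly = cubP f}.ncard : ℝ) ≤ (Big.ncard : ℝ) := by
    exact_mod_cast Set.ncard_le_ncard hsub hBigfin
  have hq0 : (0 : ℝ) < (Nat.card F : ℝ) := by
    exact_mod_cast (Nat.card_pos : 0 < Nat.card F)
  -- the bound for `WW`
  have hcardR : ∀ P ∈ S, (Nat.card (AdjoinRoot (P ^ 2)) : ℝ) =
      (Nat.card F : ℝ) ^ (2 * P.natDegree) := by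
    intro P hP
    obtain ⟨hL, hF, hr⟩ := hLS P (hS P hP).1 (hS P hP).2
    have h2' : IsUnit (2 : AdjoinRoot (P ^ 2)) := by
      have h5 : IsUnit (algebraMap F (AdjoinRoot (P ^ 2)) 2) :=
        (isUnit_iff_ne_zero.2 h2).map _
      rw [map_ofNat] at h5
      exact h5
    rw [card_eq hLDT (AdjoinRoot.mk (P ^ 2) P) hL h2', hr]
    push_cast
    rw [← pow_mul, mul_comm]
  have hW : ((WW S).ncard : ℝ) ≤ (Nat.card F : ℝ) ^ (6 * (Mod S).natDegree) *
      ∏ P ∈ S, (dens (AdjoinRoot (P ^ 2)) *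
        (1 - 1 / (Nat.card F : ℝ) ^ (2 * P.natDegree))) := by
    have h1 : ((WW S).ncard : ℝ) ≤ ∏ P ∈ S, ((Good (AdjoinRoot (P ^ 2))).ncard : ℝ) := by
      exact_mod_cast WW_card S hS hfin
    refine h1.trans ?_
    have h3 : (Nat.card F : ℝ) ^ (6 * (Mod S).natDegree) =
        ∏ P ∈ S, ((Nat.card F : ℝ) ^ (2 * P.natDegree)) ^ 6 := by
      rw [Finset.prod_pow, Finset.prod_pow_eq_pow_sum, Mod_natDegree hS, ← pow_mul, mul_comm 6]
    rw [h3, ← Finset.prod_mul_distrib]
    refine Finset.prod_le_prod (fun P _ => Nat.cast_nonneg _) ?_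
    intro P hP
    obtain ⟨hL, hF, hr⟩ := hLS P (hS P hP).1 (hS P hP).2
    have h2' : IsUnit (2 : AdjoinRoot (P ^ 2)) := by
      have h5 : IsUnit (algebraMap F (AdjoinRoot (P ^ 2)) 2) :=
        (isUnit_iff_ne_zero.2 h2).map _
      rw [map_ofNat] at h5
      exact h5
    have h6 := good_card hLDT (AdjoinRoot.mk (P ^ 2) P) hL h2'
    rw [hcardR P hP] at h6
    exact h6
  have hV : ((VV F).ncard : ℝ) ≤ (Nat.card F : ℝ) ^ 12 *
      (dens (DualNumber F) * (1 - 1 / (Nat.card F : ℝ) ^ 2)) := by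
    have hFD : Finite (DualNumber F) := inferInstanceAs (Finite (F × F))
    have hcD : (Nat.card (DualNumber F) : ℝ) = (Nat.card F : ℝ) ^ 2 := by
      have : Nat.card (F × F) = Nat.card F ^ 2 := by
        rw [Nat.card_prod, pow_two]
      exact_mod_cast this
    have h2' : IsUnit (2 : DualNumber F) := by
      have h5 : IsUnit (algebraMap F (DualNumber F) 2) :=
        (isUnit_iff_ne_zero.2 h2).map _
      rw [map_ofNat] at h5
      exact h5
    have h6 := good_card hLDT (DualNumber.eps : DualNumber F) hLD h2'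
    rw [hcD] at h6
    have h7 : ((VV F).ncard : ℝ) = ((Good (DualNumber F)).ncard : ℝ) := rfl
    rw [h7]
    calc _ ≤ _ := h6
      _ = _ := by ring
  have hE' : (Big.ncard : ℝ) * ((Nat.card F : ℝ) ^ (6 * (Mod S).natDegree) *
      (Nat.card F : ℝ) ^ 12) = (Nat.card F : ℝ) ^ (12 * n + 6) *
        ((WW S).ncard * (VV F).ncard) := by
    exact_mod_cast hE
  refine hle.trans ?_
  have hpos : (0 : ℝ) < (Nat.card F : ℝ) ^ (6 * (Mod S).natDegree) * (Nat.card F : ℝ) ^ 12 := by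
    positivity
  refine le_of_mul_le_mul_right ?_ hpos
  rw [hE']
  have h9 : ((WW S).ncard : ℝ) * ((VV F).ncard : ℝ) ≤
      ((Nat.card F : ℝ) ^ (6 * (Mod S).natDegree) *
      ∏ P ∈ S, (dens (AdjoinRoot (P ^ 2)) *
        (1 - 1 / (Nat.card F : ℝ) ^ (2 * P.natDegree)))) * ((Nat.card F : ℝ) ^ 12 *
      (dens (DualNumber F) * (1 - 1 / (Nat.card F : ℝ) ^ 2))) :=
    mul_le_mul hW hV (Nat.cast_nonneg _) ((Nat.cast_nonneg _).trans hW)
  calc _ ≤ (Nat.card F : ℝ) ^ (12 * n + 6) * (((Nat.card F : ℝ) ^ (6 * (Mod S).natDegree) *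
      ∏ P ∈ S, (dens (AdjoinRoot (P ^ 2)) *
        (1 - 1 / (Nat.card F : ℝ) ^ (2 * P.natDegree)))) * ((Nat.card F : ℝ) ^ 12 *
      (dens (DualNumber F) * (1 - 1 / (Nat.card F : ℝ) ^ 2)))) :=
        mul_le_mul_of_nonneg_left h9 (by positivity)
    _ = _ := by ring

end NUM

end Pool.AVR
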